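import Pool.Agent.helper50.NPT.Spec3

/-!
# Project NPT (MP_8f32d0_ag), block S, row EIG: the Apery basis has its coefficients in a finitely generated ring

For an element `y` of `A` of pole order `≡ 1` modulo `n` the characteristic polynomial of the multiplication by `y` is separable at `y`, so `HEN` applies. For the other basis elements
take `y = x ^ N u_1 + u_k`.
-/

set_option autoImplicit false

namespace NPT

open scoped Classical
open AN

noncomputable section

/-- `q ↦ q(x)`, `x = s ^ (-n)` -/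
def EIG_f (K : Type) [Field K] (n : ℕ) : Polynomial K →+* LS K := Polynomial.eval₂RingHom LS.C (mono (-(n : ℤ)) (1 : K))

theorem EIG_mono_pow {K : Type} [Field K] (m : ℤ) (j : ℕ) : (mono m (1 : K)) ^ j = mono (j * m) 1 := by
  induction j with
  | zero =>
    rw [pow_zero, ← map_one LS.C, C_eq_mono]
    congr 1
    simp
  | succ j ih =>
    rw [pow_succ, ih, mono_mul_mono, one_mul]
    congr 1
    push_cast
    ring

theorem EIG_f_eq {K : Type} [Field K] (n : ℕ) (q : Polynomial K) :
    EIG_f K n q = ∑ i ∈ Finset.range (q.natDegree + 1), mono (-((n * i : ℕ) : ℤ)) (q.coeff i) := by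
  show q.eval₂ LS.C (mono (-(n : ℤ)) (1 : K)) = _
  rw [Polynomial.eval₂_eq_sum_range]
  refine Finset.sum_congr rfl fun i _ => ?_
  rw [EIG_mono_pow, C_eq_mono, mono_mul_mono, mul_one]
  congr 1
  push_cast
  ring

theorem EIG_f_GE {K : Type} [Field K] (n : ℕ) (q : Polynomial K) : EIG_f K n q ∈ GE K (-((n * q.natDegree : ℕ) : ℤ)) := by
  rw [EIG_f_eq]
  refine Submodule.sum_mem _ fun i hi => ?_
  have h1 : i ≤ q.natDegree := by
    have := Finset.mem_range.1 hi
    omega
  have h2 : ((n * i : ℕ) : ℤ) ≤ ((n * q.natDegree : ℕ) : ℤ) := by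
    exact_mod_cast Nat.mul_le_mul_left n h1
  exact GE_mono (by omega) (mono_mem_GE _ _)

theorem EIG_f_lead {K : Type} [Field K] (n : ℕ) (hn : 0 < n) (q : Polynomial K) :
    cf (EIG_f K n q) (-((n * q.natDegree : ℕ) : ℤ)) = q.leadingCoeff := by
  rw [EIG_f_eq, cf_sum, Finset.sum_eq_single q.natDegree]
  · rw [cf_mono, if_pos rfl]
    rfl
  · intro i _ hi
    rw [cf_mono, if_neg]
    intro h
    apply hi
    have h1 : ((n * q.natDegree : ℕ) : ℤ) = ((n * i : ℕ) : ℤ) := by omega
    have h2 : n * q.natDegree = n * i := by exact_mod_cast h1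
    exact (Nat.eq_of_mul_eq_mul_left hn h2).symm
  · intro h
    exact absurd (Finset.mem_range.2 (Nat.lt_succ_self _)) h

theorem EIG_f_mem {K : Type} [Field K] (n : ℕ) (q : Polynomial K) (R : Subring K) (hR : ∀ i, q.coeff i ∈ R) (m : ℤ) :
    cf (EIG_f K n q) m ∈ R := by
  rw [EIG_f_eq, cf_sum]
  refine Subring.sum_mem _ fun i _ => ?_
  rw [cf_mono]
  split_ifs
  · exact hR i
  · exact R.zero_mem

/-- exact orders of powers -/
theorem EIG_pow {K : Type} [Field K] (y : LS K) (d : ℕ) (hy : y ∈ GE K (-(d : ℤ))) (hy1 : cf y (-(d : ℤ)) ≠ 0) (j : ℕ) :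
    y ^ j ∈ GE K (-((d * j : ℕ) : ℤ)) ∧ cf (y ^ j) (-((d * j : ℕ) : ℤ)) ≠ 0 := by
  induction j with
  | zero =>
    rw [pow_zero, mul_zero]
    refine ⟨?_, ?_⟩
    · exact GE_mono (by simp) (one_mem_PS (R := K))
    · rw [cf_one]
      simp
  | succ j ih =>
    have h1 : -((d * (j + 1) : ℕ) : ℤ) = -((d * j : ℕ) : ℤ) + -(d : ℤ) := by
      push_cast
      ring
    rw [pow_succ, h1]
    exact ⟨GE_mul ih.1 hy, by rw [cf_mul_lead ih.1 hy]; exact mul_ne_zero ih.2 hy1⟩

/-- (*) no relation of degree `< n` -/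
theorem EIG_ne {K : Type} [Field K] (n : ℕ) (hn : 0 < n) (y : LS K) (d : ℕ) (hd : d % n = 1 % n) (hy : y ∈ GE K (-(d : ℤ)))
    (hy1 : cf y (-(d : ℤ)) ≠ 0) (Q : Polynomial (Polynomial K)) (hQ : Q ≠ 0) (hQn : Q.natDegree < n) : Q.eval₂ (EIG_f K n) y ≠ 0 := by
  let w : ℕ → ℕ := fun j => n * (Q.coeff j).natDegree + d * j
  have hT : ∀ j, EIG_f K n (Q.coeff j) * y ^ j ∈ GE K (-((w j : ℕ) : ℤ)) := by
    intro j
    have h1 : -((w j : ℕ) : ℤ) = -((n * (Q.coeff j).natDegree : ℕ) : ℤ) + -((d * j : ℕ) : ℤ) := by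
      show -((n * (Q.coeff j).natDegree + d * j : ℕ) : ℤ) = _
      push_cast
      ring
    rw [h1]
    exact GE_mul (EIG_f_GE n _) (EIG_pow y d hy hy1 j).1
  have hT1 : ∀ j ∈ Q.support, cf (EIG_f K n (Q.coeff j) * y ^ j) (-((w j : ℕ) : ℤ)) ≠ 0 := by
    intro j hj
    have h1 : -((w j : ℕ) : ℤ) = -((n * (Q.coeff j).natDegree : ℕ) : ℤ) + -((d * j : ℕ) : ℤ) := by
      show -((n * (Q.coeff j).natDegree + d * j : ℕ) : ℤ) = _
      push_cast
      ring
    rw [h1, cf_mul_lead (EIG_f_GE n _) (EIG_pow y d hy hy1 j).1, EIG_f_lead n hn]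
    refine mul_ne_zero ?_ (EIG_pow y d hy hy1 j).2
    rw [Ne, Polynomial.leadingCoeff_eq_zero]
    exact Polynomial.mem_support_iff.1 hj
  have hw : ∀ i ∈ Q.support, ∀ j ∈ Q.support, w i = w j → i = j := by
    intro i hi j hj h
    have hmod : ∀ j ∈ Q.support, w j % n = j := by
      intro j hj
      have h1 : j < n := lt_of_le_of_lt (Polynomial.le_natDegree_of_mem_supp j hj) hQn
      show (n * (Q.coeff j).natDegree + d * j) % n = j
      rw [Nat.mul_add_mod, Nat.mul_mod, hd, ← Nat.mul_mod, one_mul, Nat.mod_eq_of_lt h1]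
    rw [← hmod i hi, ← hmod j hj, h]
  obtain ⟨j0, hj0, hmax⟩ := Finset.exists_max_image Q.support w (Polynomial.support_nonempty.2 hQ)
  intro h
  rw [Polynomial.eval₂_def, Polynomial.sum_def] at h
  have h1 : cf (∑ j ∈ Q.support, EIG_f K n (Q.coeff j) * y ^ j) (-((w j0 : ℕ) : ℤ)) = cf (0 : LS K) (-((w j0 : ℕ) : ℤ)) :=
    congrArg (fun f => cf f (-((w j0 : ℕ) : ℤ))) h
  rw [cf_sum, cf_zero, Finset.sum_eq_single j0] at h1
  · exact hT1 j0 hj0 h1
  · intro j hj hne
    refine hT j _ ?_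
    have h2 : w j < w j0 := lt_of_le_of_ne (hmax j hj) fun h3 => hne (hw j hj j0 hj0 h3)
    have h3 : ((w j : ℕ) : ℤ) < ((w j0 : ℕ) : ℤ) := by exact_mod_cast h2
    omega
  · intro h2
    exact absurd hj0 h2

/-- the exact order of a nonzero element of `PS` -/
theorem EIG_ord {K : Type} [Field K] (f : LS K) (hf : f ∈ PS K) (h0 : f ≠ 0) : ∃ e : ℕ, f ∈ GE K e ∧ cf f e ≠ 0 := by
  have h1 : ∃ e : ℕ, cf f e ≠ 0 := by
    by_contra hc
    push Not at hc
    apply h0
    apply LS.ext
    intro m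
    rw [cf_zero]
    rcases lt_or_ge m 0 with h2 | h2
    · exact hf m h2
    · obtain ⟨k, rfl⟩ := Int.eq_ofNat_of_zero_le h2
      exact hc k
  refine ⟨Nat.find h1, ?_, Nat.find_spec h1⟩
  intro m hm
  rcases lt_or_ge m 0 with h2 | h2
  · exact hf m h2
  · obtain ⟨k, rfl⟩ := Int.eq_ofNat_of_zero_le h2
    have h3 : k < Nat.find h1 := by
      have h4 : ((k : ℕ) : ℤ) < ((Nat.find h1 : ℕ) : ℤ) := hm
      exact_mod_cast h4
    have h5 := Nat.find_min h1 h3
    push Not at h5
    exact h5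

theorem EIG_PS_pow {K : Type} [Field K] (y : LS K) (hy : y ∈ PS K) (j : ℕ) : y ^ j ∈ PS K := by
  induction j with
  | zero => rw [pow_zero]; exact one_mem_PS
  | succ j ih => rw [pow_succ]; exact PS_mul ih hy

/-- **the main step** -/
theorem EIG_A (hHEN : HEN_stmt) (K : Type) [Field K] (n : ℕ) (hn : 0 < n) (hnK : (n : K) ≠ 0) (u : Fin n → LS K) (hu : u ≠ 0) (y : LS K) (d : ℕ)
    (hd : d % n = 1 % n) (hy : y ∈ GE K (-(d : ℤ))) (hy1 : cf y (-(d : ℤ)) ≠ 0) (M : Matrix (Fin n) (Fin n) (Polynomial K))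
    (hM : ∀ j, y * u j = ∑ k, EIG_f K n (M j k) * u k) : ∃ Sg : Finset K, ∀ R : Subring K, (∀ x ∈ Sg, x ∈ R) → ∀ m, cf y m ∈ R := by
  -- the polynomial
  let P0 : Polynomial (Polynomial K) := M.charpoly
  let P : Polynomial (LS K) := P0.map (EIG_f K n)
  have hP0n : P0.natDegree = n := by
    show M.charpoly.natDegree = n
    rw [Matrix.charpoly_natDegree_eq_dim, Fintype.card_fin]
  have hP0m : P0.Monic := M.charpoly_monic
  have hPm : P.Monic := hP0m.map _
  have hPn : P.natDegree = n := by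
    show (P0.map (EIG_f K n)).natDegree = n
    rw [hP0m.natDegree_map, hP0n]
  have hPy : P.eval y = 0 := by
    have h1 : P = (M.map (EIG_f K n)).charpoly := by
      show M.charpoly.map (EIG_f K n) = _
      rw [Matrix.charpoly_map]
    rw [h1, Matrix.eval_charpoly, ← Matrix.exists_mulVec_eq_zero_iff]
    refine ⟨u, hu, ?_⟩
    funext j
    rw [Matrix.sub_mulVec]
    show (Matrix.scalar (Fin n) y).mulVec u j - (M.map (EIG_f K n)).mulVec u j = 0
    have h2 : (Matrix.scalar (Fin n) y).mulVec u j = y * u j := by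
      rw [Matrix.scalar_apply, Matrix.mulVec_diagonal]
    have h3 : (M.map (EIG_f K n)).mulVec u j = ∑ k, EIG_f K n (M j k) * u k := rfl
    rw [h2, h3, hM j, sub_self]
  have hPy' : P.derivative.eval y ≠ 0 := by
    have h1 : P.derivative.eval y = P0.derivative.eval₂ (EIG_f K n) y := by
      show (P0.map (EIG_f K n)).derivative.eval y = _
      rw [Polynomial.derivative_map, Polynomial.eval_map]
    rw [h1]
    have hc : P0.derivative.coeff (n - 1) ≠ 0 := by
      rw [Polynomial.coeff_derivative, show n - 1 + 1 = n by omega]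
      have h2 : P0.coeff n = 1 := by
        have h3 := hP0m.coeff_natDegree
        rw [hP0n] at h3
        exact h3
      rw [h2, one_mul]
      have h4 : ((n - 1 : ℕ) : Polynomial K) + 1 = Polynomial.C (n : K) := by
        rw [map_natCast]
        have h5 : ((n - 1 + 1 : ℕ) : Polynomial K) = (n : Polynomial K) := by
          rw [show n - 1 + 1 = n by omega]
        rw [← h5]
        push_cast
        ring
      rw [h4]
      exact Polynomial.C_ne_zero.2 hnK
    refine EIG_ne n hn y d hd hy hy1 _ (fun h => hc (by rw [h, Polynomial.coeff_zero])) ?_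
    refine lt_of_le_of_lt (Polynomial.natDegree_derivative_le _) ?_
    rw [hP0n]
    omega
  -- clearing the poles
  let D : ℕ := ∑ i ∈ Finset.range (n + 1), (P0.coeff i).natDegree
  let L : ℕ := d + n * D
  let sL : LS K := mono (L : ℤ) 1
  have hsL : sL ≠ 0 := by
    intro h
    have h1 := congrArg (fun f => cf f (L : ℤ)) h
    have h2 : cf (mono (L : ℤ) (1 : K)) (L : ℤ) = cf (0 : LS K) (L : ℤ) := h1
    rw [cf_mono, if_pos rfl, cf_zero] at h2
    exact one_ne_zero h2
  let P1 : Polynomial (LS K) := P.scaleRoots sL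
  have hP1c : ∀ i, P1.coeff i = P.coeff i * mono (((n - i : ℕ) : ℤ) * L) 1 := by
    intro i
    show (P.scaleRoots sL).coeff i = _
    rw [Polynomial.coeff_scaleRoots, hPn]
    show _ * (mono (L : ℤ) (1 : K)) ^ (n - i) = _
    rw [EIG_mono_pow]
  have hPc : ∀ i, P.coeff i = EIG_f K n (P0.coeff i) := fun i => Polynomial.coeff_map _ _
  have hP1PS : ∀ i, P1.coeff i ∈ PS K := by
    intro i
    rw [hP1c]
    rcases lt_trichotomy i n with h | h | h
    · have h1 : n * (P0.coeff i).natDegree ≤ (n - i) * L := by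
        have h2 : (P0.coeff i).natDegree ≤ D :=
          Finset.single_le_sum (f := fun i => (P0.coeff i).natDegree) (fun _ _ => Nat.zero_le _) (Finset.mem_range.2 (by omega))
        calc n * (P0.coeff i).natDegree ≤ n * D := Nat.mul_le_mul_left n h2
          _ ≤ L := Nat.le_add_left _ _
          _ = 1 * L := (one_mul _).symm
          _ ≤ (n - i) * L := Nat.mul_le_mul_right L (by omega)
      have h3 := GE_mul (EIG_f_GE n (P0.coeff i)) (mono_mem_GE (((n - i : ℕ) : ℤ) * L) (1 : K))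
      rw [hPc]
      refine GE_mono ?_ h3
      have h4 : ((n * (P0.coeff i).natDegree : ℕ) : ℤ) ≤ (((n - i) * L : ℕ) : ℤ) := by exact_mod_cast h1
      rw [Nat.cast_mul (n - i) L] at h4
      omega
    · have h1 : P.coeff n = 1 := by
        have h3 := hPm.coeff_natDegree
        rw [hPn] at h3
        exact h3
      rw [h, h1, one_mul, Nat.sub_self]
      exact GE_mono (by simp) (mono_mem_GE _ _)
    · rw [Polynomial.coeff_eq_zero_of_natDegree_lt (by omega), zero_mul]
      exact Submodule.zero_mem _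
  have hy1PS : sL * y ∈ PS K := by
    have h1 := GE_mul (mono_mem_GE (L : ℤ) (1 : K)) hy
    refine GE_mono ?_ h1
    have h2 : d ≤ L := Nat.le_add_right _ _
    have h3 : (d : ℤ) ≤ (L : ℤ) := by exact_mod_cast h2
    omega
  have hP1y : P1.eval (sL * y) = 0 := by
    show (P.scaleRoots sL).eval (sL * y) = 0
    rw [Polynomial.scaleRoots_eval_mul, hPy, mul_zero]
  have hP1y' : P1.derivative.eval (sL * y) ≠ 0 := by
    have h1 : P1.comp (Polynomial.C sL * Polynomial.X) = Polynomial.C (sL ^ n) * P := by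
      ext1 i
      rw [Polynomial.comp_C_mul_X_coeff, Polynomial.coeff_C_mul]
      show (P.scaleRoots sL).coeff i * sL ^ i = _
      rw [Polynomial.coeff_scaleRoots, hPn]
      rcases le_or_gt i n with h | h
      · rw [mul_assoc, ← pow_add, show n - i + i = n by omega, mul_comm]
      · rw [Polynomial.coeff_eq_zero_of_natDegree_lt (p := P) (n := i) (by omega)]
        ring
    have h2 := congrArg (fun q => (Polynomial.derivative q).eval y) h1
    have h3 : (Polynomial.derivative (P1.comp (Polynomial.C sL * Polynomial.X))).eval y = sL * P1.derivative.eval (sL * y) := by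
      rw [Polynomial.derivative_comp]
      simp [Polynomial.eval_comp]
    have h4 : (Polynomial.derivative (Polynomial.C (sL ^ n) * P)).eval y = sL ^ n * P.derivative.eval y := by
      rw [Polynomial.derivative_C_mul, Polynomial.eval_mul, Polynomial.eval_C]
    have h5 : sL * P1.derivative.eval (sL * y) = sL ^ n * P.derivative.eval y := by
      rw [← h3, ← h4]
      exact h2
    intro h6
    rw [h6, mul_zero] at h5
    exact mul_ne_zero (pow_ne_zero _ hsL) hPy' h5.symm
  have hP1d : P1.derivative.eval (sL * y) ∈ PS K := by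
    rw [Polynomial.eval_eq_sum, Polynomial.sum_def]
    refine Submodule.sum_mem _ fun i _ => ?_
    refine PS_mul ?_ (EIG_PS_pow _ hy1PS i)
    rw [Polynomial.coeff_derivative]
    have h7 : ((i : LS K) + 1) = LS.C ((i : K) + 1) := by
      rw [map_add, map_natCast, map_one]
    rw [h7]
    exact PS_mul (hP1PS _) (C_mem_PS _)
  obtain ⟨e, he1, he2⟩ := EIG_ord _ hP1d hP1y'
  -- the finite set
  refine ⟨(Finset.range (n + 1)).biUnion (fun i => (Finset.range ((P0.coeff i).natDegree + 1)).image fun j => (P0.coeff i).coeff j) ∪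
    (Finset.range (e + 1)).image (fun j : ℕ => cf (sL * y) (j : ℤ)) ∪ {(cf (P1.derivative.eval (sL * y)) e)⁻¹}, fun R hR m => ?_⟩
  have hR1 : ∀ i j, (P0.coeff i).coeff j ∈ R := by
    intro i j
    rcases Nat.lt_or_ge n i with h | h
    · have h9 : P0.coeff i = 0 := Polynomial.coeff_eq_zero_of_natDegree_lt (by omega)
      rw [h9, Polynomial.coeff_zero]
      exact R.zero_mem
    · rcases Nat.lt_or_ge (P0.coeff i).natDegree j with h' | h'
      · rw [Polynomial.coeff_eq_zero_of_natDegree_lt h']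
        exact R.zero_mem
      · apply hR
        rw [Finset.mem_union, Finset.mem_union]
        left; left
        rw [Finset.mem_biUnion]
        exact ⟨i, Finset.mem_range.2 (by omega), Finset.mem_image.2 ⟨j, Finset.mem_range.2 (by omega), rfl⟩⟩
  have key := hHEN K R P1 (sL * y) e (by
      intro i m
      rw [hP1c, mul_comm, cf_mono_mul, one_mul, hPc]
      exact EIG_f_mem n _ R (hR1 i) _) hP1PS hy1PS hP1y he1 he2 (by
      apply hR
      rw [Finset.mem_union]
      right
      exact Finset.mem_singleton_self _) (by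
      intro m hm
      rcases lt_or_ge m 0 with h2 | h2
      · rw [hy1PS m h2]
        exact R.zero_mem
      · obtain ⟨k, rfl⟩ := Int.eq_ofNat_of_zero_le h2
        apply hR
        rw [Finset.mem_union, Finset.mem_union]
        left; right
        exact Finset.mem_image.2 ⟨k, Finset.mem_range.2 (by omega), rfl⟩)
  have h1 := key (m + L)
  have h2 : cf (sL * y) (m + L) = cf y m := by
    show cf (mono (L : ℤ) (1 : K) * y) (m + L) = _
    rw [cf_mono_mul, one_mul]
    congr 1
    ring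
  rwa [h2] at h1

theorem EIG (hKA : KA_stmt) (hKB : KB_stmt) (hHEN : HEN_stmt) : EIG_stmt := by
  intro K _ g γ a hI hGE n hn hnK μ c hμ hμg _ hmul
  have hlead : ∀ i, cf (a (μ i)) (-(μ i : ℤ)) = 1 := by
    intro i
    rw [hI.coef _ _ (hμg i) (hμg i), if_pos rfl]
  have hge : ∀ i, a (μ i) ∈ GE K (-(μ i : ℤ)) := fun i => hGE _ (hμg i)
  have hu : (fun i => a (μ i)) ≠ 0 := by
    intro h
    have h1 : a (μ ⟨0, hn⟩) = 0 := congrFun h ⟨0, hn⟩
    have h2 := hlead ⟨0, hn⟩
    rw [h1, cf_zero] at h2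
    exact zero_ne_one h2
  let i1 : Fin n := ⟨1 % n, Nat.mod_lt _ hn⟩
  have hi1 : μ i1 % n = 1 % n := hμ i1
  obtain ⟨S1, hS1⟩ := EIG_A hHEN K n hn hnK (fun i => a (μ i)) hu (a (μ i1)) (μ i1) hi1 (hge i1)
    (by rw [hlead]; exact one_ne_zero) (fun j k => c i1 j k) (fun j => hmul i1 j)
  have hk : ∀ k : Fin n, ∃ Sg : Finset K, ∀ R : Subring K, (∀ x ∈ Sg, x ∈ R) →
      ∀ m, cf (mono (-((n * (μ k + 1) : ℕ) : ℤ)) 1 * a (μ i1) + a (μ k)) m ∈ R := by
    intro k
    have hlt : μ k < n * (μ k + 1) + μ i1 := by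
      have h1 : 1 * (μ k + 1) ≤ n * (μ k + 1) := Nat.mul_le_mul_right _ hn
      omega
    have hltz : ((μ k : ℕ) : ℤ) < ((n * (μ k + 1) + μ i1 : ℕ) : ℤ) := by exact_mod_cast hlt
    refine EIG_A hHEN K n hn hnK (fun i => a (μ i)) hu _ (n * (μ k + 1) + μ i1) ?_ ?_ ?_
      (fun j l => Polynomial.X ^ (μ k + 1) * c i1 j l + c k j l) ?_
    · rw [Nat.mul_add_mod]
      exact hi1
    · refine Submodule.add_mem _ ?_ (GE_mono (by omega) (hge k))
      have h1 := GE_mul (mono_mem_GE (-((n * (μ k + 1) : ℕ) : ℤ)) (1 : K)) (hge i1)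
      refine GE_mono ?_ h1
      rw [Nat.cast_add (n * (μ k + 1))]
      omega
    · rw [cf_add, cf_mono_mul, one_mul, hge k _ (by omega), add_zero]
      have h1 : -((n * (μ k + 1) + μ i1 : ℕ) : ℤ) - -((n * (μ k + 1) : ℕ) : ℤ) = -(μ i1 : ℤ) := by
        rw [Nat.cast_add (n * (μ k + 1))]
        ring
      rw [h1, hlead]
      exact one_ne_zero
    · intro j
      have h1 : a (μ i1) * a (μ j) = ∑ l, EIG_f K n (c i1 j l) * a (μ l) := hmul i1 j
      have h2 : a (μ k) * a (μ j) = ∑ l, EIG_f K n (c k j l) * a (μ l) := hmul k j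
      have h3 : EIG_f K n (Polynomial.X ^ (μ k + 1)) = mono (-((n * (μ k + 1) : ℕ) : ℤ)) 1 := by
        rw [map_pow]
        have h4 : EIG_f K n Polynomial.X = mono (-(n : ℤ)) 1 := by
          show Polynomial.eval₂ LS.C (mono (-(n : ℤ)) (1 : K)) Polynomial.X = _
          rw [Polynomial.eval₂_X]
        rw [h4, EIG_mono_pow]
        congr 1
        push_cast
        ring
      show (mono (-((n * (μ k + 1) : ℕ) : ℤ)) 1 * a (μ i1) + a (μ k)) * a (μ j) = _
      rw [add_mul, mul_assoc, h1, h2, Finset.mul_sum, ← Finset.sum_add_distrib]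
      refine Finset.sum_congr rfl fun l _ => ?_
      show _ = EIG_f K n (Polynomial.X ^ (μ k + 1) * c i1 j l + c k j l) * a (μ l)
      rw [map_add, map_mul, h3]
      ring
  choose S hS using hk
  refine ⟨S1 ∪ Finset.univ.biUnion S, fun R hR k m => ?_⟩
  have h1 := hS k R (fun x hx => hR x (Finset.mem_union_right _ (Finset.mem_biUnion.2 ⟨k, Finset.mem_univ _, hx⟩))) m
  have h2 := hS1 R (fun x hx => hR x (Finset.mem_union_left _ hx)) (m - -((n * (μ k + 1) : ℕ) : ℤ))
  rw [cf_add, cf_mono_mul, one_mul] at h1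
  have h3 := R.sub_mem h1 h2
  rwa [add_sub_cancel_left] at h3

end

end NPT
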